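import Mathlib

/-!
# The points with dense orbit under the erasing substitution map form a comeagre set
-/

namespace Pool.Agent.Results.MP_7df46e_an.DenseOrbitsComeagre

open Filter Topology Set

/-- The real number `∑ b_k 2^{-k}`; here `b 0 = b_1`, `b 1 = b_2`, and so on. -/
noncomputable def val (b : ℕ → Bool) : ℝ := ∑' k, (if b k = true then (1 : ℝ) else 0) * (1 / 2) ^ (k + 1)

/-- `b` is a binary expansion of `x` which is not eventually `0`. -/
def IsExpansion (x : ℝ) (b : ℕ → Bool) : Prop := (∃ᶠ k in atTop, b k = true) ∧ x = val b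

/-- The expansion `β(x)` (for `x ∈ (0,1]` it exists and is unique, see `isExpansion_beta` and
`beta_eq`). -/
noncomputable def beta (x : ℝ) : ℕ → Bool := Classical.epsilon (IsExpansion x)

/-- The substitution `ρ`: all `0`s are deleted, and the `j`-th `1` of `b` becomes `1` if its
position is even and `0` if its position is odd. (The entry `b p` is in position `p + 1`.) -/
noncomputable def rho (b : ℕ → Bool) : ℕ → Bool :=
  fun j => decide (Odd (Nat.nth (fun k => b k = true) j))

lemma summable_val (b : ℕ → Bool) :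
    Summable fun k => (if b k = true then (1 : ℝ) else 0) * (1 / 2) ^ (k + 1) := by
  have h : Summable fun k : ℕ => ((1 : ℝ) / 2) ^ (k + 1) :=
    (summable_nat_add_iff 1).2 (summable_geometric_of_lt_one (by norm_num) (by norm_num))
  refine Summable.of_nonneg_of_le (fun k => ?_) (fun k => ?_) h
  · split_ifs <;> positivity
  · split_ifs
    · rw [one_mul]
    · rw [zero_mul]; positivity

lemma val_nonneg (b : ℕ → Bool) : 0 ≤ val b :=
  tsum_nonneg fun k => by split_ifs <;> positivity

lemma val_le_one (b : ℕ → Bool) : val b ≤ 1 := by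
  have h : HasSum (fun k : ℕ => ((1 : ℝ) / 2) ^ (k + 1)) 1 := by
    have := hasSum_geometric_two' 1
    simpa [div_eq_mul_inv, pow_succ, mul_comm] using this
  rw [← h.tsum_eq]
  refine (summable_val b).tsum_le_tsum (fun k => ?_) h.summable
  split_ifs
  · rw [one_mul]
  · rw [zero_mul]; positivity

/-- The map `R` of `[0,1]`. -/
noncomputable def R (x : Icc (0 : ℝ) 1) : Icc (0 : ℝ) 1 :=
  if (x : ℝ) = 0 then ⟨2 / 3, by norm_num, by norm_num⟩
  else ⟨val (rho (beta x)), val_nonneg _, val_le_one _⟩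

/-- The set `E` of the points with dense orbit. -/
def E : Set (Icc (0 : ℝ) 1) := {x | Dense (range fun n : ℕ => R^[n] x)}

/-! ### Binary expansions -/

lemma val_succ (b : ℕ → Bool) :
    val b = ((if b 0 = true then (1 : ℝ) else 0) + val fun j => b (j + 1)) / 2 := by
  unfold val
  rw [(summable_val b).tsum_eq_zero_add, add_div, ← tsum_div_const]
  congr 1
  · ring
  · congr 1
    funext k
    ring

lemma val_pos {b : ℕ → Bool} (h : ∃ k, b k = true) : 0 < val b := by
  obtain ⟨k, hk⟩ := h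
  have := (summable_val b).le_tsum k fun j _ => by split_ifs <;> positivity
  refine lt_of_lt_of_le ?_ this
  rw [if_pos hk]
  positivity

/-- The integers `∑_{j<k} b_j 2^{k-1-j}`. -/
def M (b : ℕ → Bool) : ℕ → ℤ
  | 0 => 0
  | k + 1 => 2 * M b k + if b k = true then 1 else 0

lemma two_pow_val (b : ℕ → Bool) : ∀ k, (2 : ℝ) ^ k * val b = M b k + val fun j => b (j + k)
  | 0 => by simp [M]
  | k + 1 => by
    rw [pow_succ, mul_comm _ (2 : ℝ), mul_assoc, two_pow_val b k, val_succ fun j => b (j + k), M]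
    have : (fun j => b (j + 1 + k)) = fun j => b (j + (k + 1)) := by
      funext j; congr 1; ring
    simp only [zero_add]
    rw [this]
    push_cast
    ring

/-- `⌈2^k x⌉ - 1`. -/
noncomputable def N (k : ℕ) (x : ℝ) : ℤ := ⌈(2 : ℝ) ^ k * x⌉ - 1

/-- The digits. -/
noncomputable def dig (x : ℝ) (k : ℕ) : Bool := decide (N (k + 1) x % 2 = 1)

lemma N_zero {x : ℝ} (h0 : 0 < x) (h1 : x ≤ 1) : N 0 x = 0 := by
  unfold N
  have : ⌈(2 : ℝ) ^ 0 * x⌉ = 1 := by
    rw [pow_zero, one_mul, Int.ceil_eq_iff]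
    constructor <;> push_cast <;> linarith
  rw [this]; rfl

lemma N_lt (k : ℕ) (x : ℝ) : (N k x : ℝ) < 2 ^ k * x := by
  unfold N
  push_cast
  have := Int.ceil_lt_add_one ((2 : ℝ) ^ k * x)
  linarith

lemma le_N (k : ℕ) (x : ℝ) : 2 ^ k * x ≤ (N k x : ℝ) + 1 := by
  unfold N
  push_cast
  have := Int.le_ceil ((2 : ℝ) ^ k * x)
  linarith

lemma N_eq_iff {k : ℕ} {x : ℝ} {m : ℤ} : N k x = m ↔ (m : ℝ) < 2 ^ k * x ∧ 2 ^ k * x ≤ m + 1 := by
  unfold N
  rw [sub_eq_iff_eq_add, Int.ceil_eq_iff]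
  push_cast
  rw [add_sub_cancel_right]

lemma N_succ (k : ℕ) (x : ℝ) : N (k + 1) x = 2 * N k x ∨ N (k + 1) x = 2 * N k x + 1 := by
  have h1 := N_lt k x
  have h2 := le_N k x
  have h3 := N_lt (k + 1) x
  have h4 := le_N (k + 1) x
  rw [pow_succ] at h3 h4
  have h5 : (2 * N k x : ℝ) < N (k + 1) x + 1 := by linarith
  have h6 : (N (k + 1) x : ℝ) < 2 * N k x + 2 := by linarith
  have h5' : 2 * N k x < N (k + 1) x + 1 := by exact_mod_cast h5
  have h6' : N (k + 1) x < 2 * N k x + 2 := by exact_mod_cast h6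
  omega

lemma M_dig {x : ℝ} (h0 : 0 < x) (h1 : x ≤ 1) : ∀ k, M (dig x) k = N k x
  | 0 => (N_zero h0 h1).symm
  | k + 1 => by
    rw [M, M_dig h0 h1 k]
    simp only [dig, decide_eq_true_eq]
    rcases N_succ k x with h | h
    · rw [if_neg (by omega), h, add_zero]
    · rw [if_pos (by omega), h]

lemma eq_of_pow_bound {a b : ℝ} (h : ∀ k : ℕ, |2 ^ k * a - 2 ^ k * b| ≤ 1) : a = b := by
  by_contra hne
  have hpos : 0 < |a - b| := abs_pos.2 (sub_ne_zero.2 hne)
  obtain ⟨k, hk⟩ := pow_unbounded_of_one_lt (1 / |a - b|) (show (1 : ℝ) < 2 by norm_num)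
  have := h k
  rw [← mul_sub, abs_mul, abs_of_pos (by positivity)] at this
  rw [div_lt_iff₀ hpos] at hk
  linarith

lemma val_dig {x : ℝ} (h0 : 0 < x) (h1 : x ≤ 1) : val (dig x) = x := by
  apply eq_of_pow_bound
  intro k
  have h2 := two_pow_val (dig x) k
  rw [M_dig h0 h1] at h2
  have h3 := N_lt k x
  have h4 := le_N k x
  have h5 := val_nonneg fun j => dig x (j + k)
  have h6 := val_le_one fun j => dig x (j + k)
  rw [abs_le]
  constructor <;> linarith

lemma isExpansion_dig {x : ℝ} (h0 : 0 < x) (h1 : x ≤ 1) : IsExpansion x (dig x) := by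
  refine ⟨?_, (val_dig h0 h1).symm⟩
  rw [frequently_atTop]
  by_contra hcon
  push Not at hcon
  obtain ⟨k, hk⟩ := hcon
  have h2 := two_pow_val (dig x) k
  have h3 : val (fun j => dig x (j + k)) = 0 := by
    unfold val
    have : ∀ j, dig x (j + k) ≠ true := fun j => hk (j + k) (Nat.le_add_left _ _)
    simp [this]
  rw [h3, M_dig h0 h1, val_dig h0 h1, add_zero] at h2
  have h4 := N_lt k x
  linarith

lemma N_val {b : ℕ → Bool} (hb : ∃ᶠ k in atTop, b k = true) (k : ℕ) : N k (val b) = M b k := by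
  rw [N_eq_iff, two_pow_val b k]
  have h1 : 0 < val fun j => b (j + k) := by
    obtain ⟨j, hj, hj'⟩ := frequently_atTop.1 hb k
    exact val_pos ⟨j - k, by rw [Nat.sub_add_cancel hj]; exact hj'⟩
  have h2 := val_le_one fun j => b (j + k)
  constructor <;> linarith

lemma dig_val {b : ℕ → Bool} (hb : ∃ᶠ k in atTop, b k = true) : dig (val b) = b := by
  funext k
  unfold dig
  rw [N_val hb, M]
  cases hk : b k with
  | true =>
    rw [if_pos rfl, decide_eq_true_eq]
    omega
  | false =>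
    rw [if_neg (by decide), decide_eq_false_iff_not]
    omega

/-- Uniqueness of the expansion. -/
lemma beta_eq {x : ℝ} {b : ℕ → Bool} (h : IsExpansion x b) : beta x = b := by
  have h1 : IsExpansion x (beta x) := Classical.epsilon_spec ⟨b, h⟩
  rw [← dig_val h.1, ← h.2, ← dig_val h1.1, ← h1.2]

/-- Existence of the expansion. -/
lemma isExpansion_beta {x : ℝ} (h0 : 0 < x) (h1 : x ≤ 1) : IsExpansion x (beta x) :=
  Classical.epsilon_spec ⟨_, isExpansion_dig h0 h1⟩

lemma beta_eq_dig {x : ℝ} (h0 : 0 < x) (h1 : x ≤ 1) : beta x = dig x :=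
  beta_eq (isExpansion_dig h0 h1)

/-! ### Finite words -/

/-- The action of `ρ` on finite words, the first letter having odd position if `p = false`. -/
def rhoAux : Bool → List Bool → List Bool
  | _, [] => []
  | p, false :: u => rhoAux (!p) u
  | p, true :: u => p :: rhoAux (!p) u

/-- The action of `ρ` on finite words. -/
def rhoW (u : List Bool) : List Bool := rhoAux false u

lemma rhoAux_append : ∀ (p : Bool) (u v : List Bool),
    rhoAux p (u ++ v) = rhoAux p u ++ rhoAux (p ^^ decide (Odd u.length)) v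
  | p, [], v => by simp [rhoAux]
  | p, a :: u, v => by
    have h : (!p ^^ decide (Odd u.length)) = (p ^^ decide (Odd (u.length + 1))) := by
      by_cases ho : Odd u.length
      · have : ¬ Odd (u.length + 1) := by
          rw [Nat.odd_add_one, not_not]; exact ho
        simp [ho, this]
      · have : Odd (u.length + 1) := by
          rw [Nat.odd_add_one]; exact ho
        simp [ho, this]
    cases a
    · rw [List.cons_append, rhoAux, rhoAux, rhoAux_append, List.length_cons, h]
    · rw [List.cons_append, rhoAux, rhoAux, rhoAux_append, List.length_cons, h, List.cons_append]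

lemma rhoW_append (u v : List Bool) : rhoW (u ++ v) = rhoW u ++ rhoAux (decide (Odd u.length)) v := by
  unfold rhoW
  rw [rhoAux_append, Bool.false_xor]

lemma rhoAux_length : ∀ (p : Bool) (u : List Bool), (rhoAux p u).length ≤ u.length
  | _, [] => le_rfl
  | _, false :: u => (rhoAux_length _ u).trans (Nat.le_succ _)
  | _, true :: u => Nat.succ_le_succ (rhoAux_length _ u)

lemma rhoW_two_length {u : List Bool} (hu : u ≠ []) : (rhoW (rhoW u)).length < u.length := by
  rcases u with _ | ⟨_ | _, u⟩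
  · exact absurd rfl hu
  · have h1 : (rhoW (false :: u)).length ≤ u.length := rhoAux_length _ u
    have h2 := rhoAux_length false (rhoW (false :: u))
    show (rhoAux false (rhoW (false :: u))).length < _
    rw [List.length_cons]
    omega
  · have h1 : rhoW (rhoW (true :: u)) = rhoAux true (rhoAux true u) := rfl
    rw [h1, List.length_cons]
    have h2 := rhoAux_length true (rhoAux true u)
    have h3 := rhoAux_length true u
    omega

lemma erase : ∀ (m : ℕ) (u : List Bool), u.length ≤ m → rhoW^[2 * m] u = []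
  | 0, u, h => by
    rw [Nat.mul_zero, Function.iterate_zero, id]
    exact List.length_eq_zero_iff.1 (Nat.le_zero.1 h)
  | m + 1, u, h => by
    rw [show 2 * (m + 1) = 2 * m + 1 + 1 by ring, Function.iterate_succ_apply,
      Function.iterate_succ_apply]
    apply erase m
    rcases eq_or_ne u [] with rfl | hu
    · exact Nat.zero_le _
    · have := rhoW_two_length hu
      omega

lemma extend : ∀ (z u : List Bool), ∃ v, rhoW (u ++ v) = rhoW u ++ z
  | [], u => ⟨[], by simp⟩
  | c :: z, u => by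
    obtain ⟨v₁, hv₁⟩ : ∃ v₁, rhoW (u ++ v₁) = rhoW u ++ [c] := by
      by_cases h : c = decide (Odd u.length)
      · refine ⟨[true], ?_⟩
        rw [rhoW_append, rhoAux, rhoAux, h]
      · refine ⟨[false, true], ?_⟩
        rw [rhoW_append, rhoAux, rhoAux, rhoAux]
        have : c = !decide (Odd u.length) := by
          cases c <;> cases hd : decide (Odd u.length) <;> simp_all
        rw [this]
    obtain ⟨v₂, hv₂⟩ := extend z (u ++ v₁)
    refine ⟨v₁ ++ v₂, ?_⟩
    rw [← List.append_assoc, hv₂, hv₁, List.append_assoc]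
    rfl

lemma extend_iter : ∀ (n : ℕ) (u z : List Bool), ∃ v, rhoW^[n] (u ++ v) = rhoW^[n] u ++ z
  | 0, u, z => ⟨z, rfl⟩
  | n + 1, u, z => by
    obtain ⟨v₁, h₁⟩ := extend_iter n (rhoW u) z
    obtain ⟨v, h⟩ := extend v₁ u
    refine ⟨v, ?_⟩
    rw [Function.iterate_succ_apply, Function.iterate_succ_apply, h, h₁]

/-- The prefix of length `n`. -/
def pre (b : ℕ → Bool) (n : ℕ) : List Bool := (List.range n).map b

lemma pre_succ (b : ℕ → Bool) (n : ℕ) : pre b (n + 1) = pre b n ++ [b n] := by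
  unfold pre
  rw [List.range_succ, List.map_append]
  rfl

lemma length_pre (b : ℕ → Bool) (n : ℕ) : (pre b n).length = n := by simp [pre]

lemma rhoW_pre (b : ℕ → Bool) : ∀ n, rhoW (pre b n) =
    pre (rho b) (Nat.count (fun k => b k = true) n)
  | 0 => rfl
  | n + 1 => by
    rw [pre_succ, rhoW_append, rhoW_pre b n, length_pre, Nat.count_succ]
    cases h : b n with
    | false =>
      rw [rhoAux, rhoAux, if_neg (by simp), add_zero, List.append_nil]
    | true =>
      rw [rhoAux, rhoAux, if_pos rfl, pre_succ]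
      congr 2
      unfold rho
      rw [Nat.nth_count (p := fun k => b k = true) h]

/-- `u` is a prefix of the sequence `b`. -/
def IsPre (u : List Bool) (b : ℕ → Bool) : Prop := u = pre b u.length

lemma isPre_pre (b : ℕ → Bool) (n : ℕ) : IsPre (pre b n) b := by
  unfold IsPre
  rw [length_pre]

lemma IsPre.rho {u : List Bool} {b : ℕ → Bool} (h : IsPre u b) : IsPre (rhoW u) (rho b) := by
  rw [h, rhoW_pre]
  exact isPre_pre _ _

lemma IsPre.get {u : List Bool} {b : ℕ → Bool} (h : IsPre u b) {i : ℕ} (hi : i < u.length) :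
    b i = u[i] := by
  have : u[i] = (pre b u.length)[i]'(by rw [length_pre]; exact hi) := by
    congr 1
  rw [this]
  simp [pre]

lemma IsPre.of_append {u v : List Bool} {b : ℕ → Bool} (h : IsPre (u ++ v) b) : IsPre u b := by
  apply List.ext_getElem (by rw [length_pre])
  intro i h1 h2
  have h3 := h.get (i := i) (by rw [List.length_append]; omega)
  rw [List.getElem_append_left h1] at h3
  rw [← h3]
  simp [pre]

/-! ### Topology -/

lemma N_mono_eq {x y : ℝ} {k : ℕ} (h : N k x = N k y) : ∀ j ≤ k, N j x = N j y := by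
  intro j hj
  induction k with
  | zero =>
    rw [Nat.le_zero.1 hj]
    exact h
  | succ k ih =>
    rcases Nat.lt_or_ge k j with h' | h'
    · rw [show j = k + 1 by omega]
      exact h
    · apply ih _ h'
      rcases N_succ k x with h1 | h1 <;> rcases N_succ k y with h2 | h2 <;> omega

lemma pre_dig_eq {x y : ℝ} {k : ℕ} (h : N k x = N k y) : pre (dig x) k = pre (dig y) k := by
  unfold pre
  apply List.map_congr_left
  intro j hj
  rw [List.mem_range] at hj
  unfold dig
  rw [N_mono_eq h (j + 1) hj]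

lemma M_congr {b c : ℕ → Bool} : ∀ {k : ℕ}, (∀ j < k, b j = c j) → M b k = M c k
  | 0, _ => rfl
  | k + 1, h => by
    rw [M, M, M_congr fun j hj => h j (Nat.lt_succ_of_lt hj), h k (Nat.lt_succ_self k)]

lemma abs_val_sub_le {b c : ℕ → Bool} {k : ℕ} (h : ∀ j < k, b j = c j) :
    |val b - val c| ≤ (1 / 2) ^ k := by
  have h1 := two_pow_val b k
  have h2 := two_pow_val c k
  rw [M_congr h] at h1
  have h3 := val_nonneg fun j => b (j + k)
  have h4 := val_le_one fun j => b (j + k)
  have h5 := val_nonneg fun j => c (j + k)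
  have h6 := val_le_one fun j => c (j + k)
  have h7 : |2 ^ k * val b - 2 ^ k * val c| ≤ 1 := by
    rw [abs_le]
    constructor <;> linarith
  rw [← mul_sub, abs_mul, abs_of_pos (by positivity)] at h7
  rw [one_div, inv_pow, ← one_div, le_div_iff₀ (by positivity), mul_comm]
  exact h7

lemma abs_sub_le_of_pre {x y : ℝ} (hx0 : 0 < x) (hx1 : x ≤ 1) (hy0 : 0 < y) (hy1 : y ≤ 1)
    {u : List Bool} (hx : IsPre u (dig x)) (hy : IsPre u (dig y)) :
    |x - y| ≤ (1 / 2) ^ u.length := by
  rw [← val_dig hx0 hx1, ← val_dig hy0 hy1]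
  apply abs_val_sub_le
  intro j hj
  rw [hx.get hj, hy.get hj]

/-- A sequence with a given prefix. -/
def ext (u : List Bool) : ℕ → Bool := fun j => u.getD j true

lemma isPre_ext (u : List Bool) : IsPre u (ext u) := by
  apply List.ext_getElem (by rw [length_pre])
  intro i h1 h2
  simp [pre, ext, h1]

lemma frequently_ext (u : List Bool) : ∃ᶠ k in atTop, ext u k = true := by
  rw [frequently_atTop]
  intro a
  refine ⟨max a u.length, le_max_left _ _, ?_⟩
  unfold ext
  rw [List.getD_eq_default _ _ (le_max_right _ _)]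

lemma exists_pos_near (x : Icc (0 : ℝ) 1) {ε : ℝ} (hε : 0 < ε) :
    ∃ y : ℝ, 0 < y ∧ y ≤ 1 ∧ |(x : ℝ) - y| < ε := by
  by_cases h : (x : ℝ) = 0
  · refine ⟨min 1 (ε / 2), by positivity, min_le_left _ _, ?_⟩
    rw [h, zero_sub, abs_neg, abs_of_pos (by positivity)]
    exact (min_le_right _ _).trans_lt (by linarith)
  · refine ⟨x, lt_of_le_of_ne x.2.1 (Ne.symm h), x.2.2, ?_⟩
    rw [sub_self, abs_zero]
    exact hε

/-- The points whose expansion has a prefix with the property `Q`. -/
def OQ (Q : List Bool → Prop) : Set (Icc (0 : ℝ) 1) :=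
  {x | 0 < (x : ℝ) ∧ ∃ k, Q (pre (beta x) k)}

lemma OQ_residual {Q : List Bool → Prop} (hQ : ∀ u, ∃ v, Q (u ++ v)) :
    OQ Q ∈ residual (Icc (0 : ℝ) 1) := by
  refine Filter.mem_of_superset (residual_of_dense_open isOpen_interior ?_) interior_subset
  rw [Metric.dense_iff]
  intro x₀ ε hε
  obtain ⟨y, hy0, hy1, hy⟩ := exists_pos_near x₀ (half_pos hε)
  obtain ⟨k, hk⟩ := exists_pow_lt_of_lt_one (half_pos hε) (show (1 / 2 : ℝ) < 1 by norm_num)
  obtain ⟨v, hv⟩ := hQ (pre (dig y) k)
  set u' := pre (dig y) k ++ v with hu'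
  set x₁ := val (ext u') with hx₁
  have hf := frequently_ext u'
  have h1 : 0 < x₁ := val_pos hf.exists
  have h2 : x₁ ≤ 1 := val_le_one _
  have h3 : dig x₁ = ext u' := dig_val hf
  set k' := u'.length with hk'
  set m := N k' x₁ with hm
  have h4 := N_lt k' x₁
  have h5 := le_N k' x₁
  rw [← hm] at h4 h5
  have hp : (0 : ℝ) < 2 ^ k' := by positivity
  have hm0 : 0 ≤ m := by
    have : (0 : ℝ) < m + 1 := lt_of_lt_of_le (by positivity) h5
    have : (0 : ℤ) < m + 1 := by exact_mod_cast this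
    omega
  have hm0' : (0 : ℝ) ≤ m := by exact_mod_cast hm0
  have hm1 : (m : ℝ) + 1 ≤ 2 ^ k' := by
    have h6 : (m : ℝ) < 2 ^ k' := h4.trans_le (by nlinarith)
    have h7 : m < 2 ^ k' := by exact_mod_cast h6
    have h8 : m + 1 ≤ 2 ^ k' := h7
    exact_mod_cast h8
  -- points in the open interval have the prefix `u'`
  have key : ∀ x : ℝ, (m : ℝ) < 2 ^ k' * x → 2 ^ k' * x < m + 1 →
      0 < x ∧ x ≤ 1 ∧ IsPre u' (dig x) := by
    intro x hx hx'
    have hx0 : 0 < x := by
      by_contra hcon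
      push Not at hcon
      nlinarith
    have hx1 : x ≤ 1 := by
      by_contra hcon
      push Not at hcon
      nlinarith
    refine ⟨hx0, hx1, ?_⟩
    have h9 : N k' x = N k' x₁ := by
      rw [← hm]
      exact N_eq_iff.2 ⟨hx, hx'.le⟩
    have h10 := pre_dig_eq h9
    unfold IsPre
    rw [← hk', h10, h3]
    exact isPre_ext u'
  have hsub : {x : Icc (0 : ℝ) 1 | (m : ℝ) < 2 ^ k' * x ∧ 2 ^ k' * x < (m : ℝ) + 1} ⊆ OQ Q := by
    rintro x ⟨hx, hx'⟩
    obtain ⟨hx0, hx1, hxp⟩ := key x hx hx'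
    refine ⟨hx0, k', ?_⟩
    rw [beta_eq_dig hx0 hx1]
    rw [IsPre, ← hk'] at hxp
    rw [← hxp]
    exact hv
  have hopen : IsOpen {x : Icc (0 : ℝ) 1 | (m : ℝ) < 2 ^ k' * x ∧ 2 ^ k' * x < (m : ℝ) + 1} := by
    apply IsOpen.inter
    · exact isOpen_lt continuous_const (continuous_const.mul continuous_subtype_val)
    · exact isOpen_lt (continuous_const.mul continuous_subtype_val) continuous_const
  have hx2a : (m : ℝ) < 2 ^ k' * ((m + 1 / 2) / 2 ^ k') := by
    rw [mul_div_cancel₀ _ hp.ne']; linarith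
  have hx2b : 2 ^ k' * (((m : ℝ) + 1 / 2) / 2 ^ k') < m + 1 := by
    rw [mul_div_cancel₀ _ hp.ne']; linarith
  obtain ⟨hx20, hx21, hx2p⟩ := key _ hx2a hx2b
  refine ⟨⟨(m + 1 / 2) / 2 ^ k', hx20.le, hx21⟩, ?_,
    mem_interior.2 ⟨_, hsub, hopen, hx2a, hx2b⟩⟩
  rw [Metric.mem_ball, Subtype.dist_eq, Real.dist_eq]
  have h11 : |((m : ℝ) + 1 / 2) / 2 ^ k' - y| ≤ (1 / 2) ^ (pre (dig y) k).length :=
    abs_sub_le_of_pre hx20 hx21 hy0 hy1 (IsPre.of_append (u := pre (dig y) k) (v := v) hx2p)
      (isPre_pre _ _)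
  rw [length_pre] at h11
  calc |((m : ℝ) + 1 / 2) / 2 ^ k' - x₀|
      = |(((m : ℝ) + 1 / 2) / 2 ^ k' - y) + (y - x₀)| := by ring_nf
    _ ≤ |((m : ℝ) + 1 / 2) / 2 ^ k' - y| + |y - x₀| := abs_add_le _ _
    _ < ε := by rw [abs_sub_comm y]; linarith

lemma iterate_pre {x : Icc (0 : ℝ) 1} (hx : 0 < (x : ℝ))
    (hinf : ∀ n m : ℕ, ∃ k i, m ≤ i ∧ (rhoW^[n] (pre (beta x) k))[i]? = some true) :
    ∀ n : ℕ, 0 < (R^[n] x : ℝ) ∧ ∀ k, IsPre (rhoW^[n] (pre (beta x) k)) (beta (R^[n] x))
  | 0 => ⟨hx, fun k => isPre_pre _ _⟩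
  | n + 1 => by
    obtain ⟨hpos, hpre⟩ := iterate_pre hx hinf n
    have hR : (R^[n + 1] x : ℝ) = val (rho (beta (R^[n] x))) := by
      rw [Function.iterate_succ_apply', R, if_neg hpos.ne']
    have hpre' : ∀ k, IsPre (rhoW^[n + 1] (pre (beta x) k)) (rho (beta (R^[n] x))) := by
      intro k
      rw [Function.iterate_succ_apply']
      exact (hpre k).rho
    have hfreq : ∃ᶠ j in atTop, rho (beta (R^[n] x)) j = true := by
      rw [frequently_atTop]
      intro m
      obtain ⟨k, i, hmi, hi⟩ := hinf (n + 1) m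
      obtain ⟨hi', hi''⟩ := List.getElem?_eq_some_iff.1 hi
      refine ⟨i, hmi, ?_⟩
      rw [(hpre' k).get hi', hi'']
    have hexp : IsExpansion (R^[n + 1] x : ℝ) (rho (beta (R^[n] x))) := ⟨hfreq, hR⟩
    refine ⟨?_, ?_⟩
    · rw [hR]
      exact val_pos hfreq.exists
    · rw [beta_eq hexp]
      exact hpre'

lemma dense_orbit {x : Icc (0 : ℝ) 1} (hx : 0 < (x : ℝ))
    (hinf : ∀ n m : ℕ, ∃ k i, m ≤ i ∧ (rhoW^[n] (pre (beta x) k))[i]? = some true)
    (hw : ∀ w : List Bool, ∃ k n, w <+: rhoW^[n] (pre (beta x) k)) : x ∈ E := by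
  show Dense _
  rw [Metric.dense_iff]
  intro y₀ ε hε
  obtain ⟨y, hy0, hy1, hy⟩ := exists_pos_near y₀ (half_pos hε)
  obtain ⟨k, hk⟩ := exists_pow_lt_of_lt_one (half_pos hε) (show (1 / 2 : ℝ) < 1 by norm_num)
  obtain ⟨k', n, v, hv⟩ := hw (pre (dig y) k)
  obtain ⟨hpos, hpre⟩ := iterate_pre hx hinf n
  refine ⟨R^[n] x, ?_, n, rfl⟩
  have h1 := hpre k'
  rw [← hv] at h1
  have h2 := h1.of_append
  rw [beta_eq_dig hpos (R^[n] x).2.2] at h2
  have h3 := abs_sub_le_of_pre hpos (R^[n] x).2.2 hy0 hy1 h2 (isPre_pre _ _)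
  rw [length_pre] at h3
  rw [Metric.mem_ball, Subtype.dist_eq, Real.dist_eq]
  calc |(R^[n] x : ℝ) - y₀| = |((R^[n] x : ℝ) - y) + (y - y₀)| := by ring_nf
    _ ≤ |(R^[n] x : ℝ) - y| + |y - y₀| := abs_add_le _ _
    _ < ε := by rw [abs_sub_comm y]; linarith

/-- The set `E` of the points of `[0,1]` with dense `R`-orbit is comeagre in `[0,1]`; in
particular it is of second category. -/
theorem result : IsMeagre (Eᶜ : Set (Icc (0 : ℝ) 1)) ∧ ¬ IsMeagre E := by
  have hE : E ∈ residual (Icc (0 : ℝ) 1) := by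
    have h1 : ∀ n m : ℕ, ∀ᶠ x in residual (Icc (0 : ℝ) 1),
        x ∈ OQ fun u => ∃ i, m ≤ i ∧ (rhoW^[n] u)[i]? = some true := by
      intro n m
      suffices h : OQ (fun u => ∃ i, m ≤ i ∧ (rhoW^[n] u)[i]? = some true) ∈
          residual (Icc (0 : ℝ) 1) by
        filter_upwards [h] with x hx using hx
      apply OQ_residual
      intro u
      obtain ⟨v, hv⟩ := extend_iter n u (List.replicate (m + 1) true)
      refine ⟨v, (rhoW^[n] u).length + m, Nat.le_add_left _ _, ?_⟩
      rw [hv, List.getElem?_append_right (Nat.le_add_right _ _), Nat.add_sub_cancel_left]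
      simp
    have h2 : ∀ w : List Bool, ∀ᶠ x in residual (Icc (0 : ℝ) 1),
        x ∈ OQ fun u => ∃ n, w <+: rhoW^[n] u := by
      intro w
      suffices h : OQ (fun u => ∃ n, w <+: rhoW^[n] u) ∈ residual (Icc (0 : ℝ) 1) by
        filter_upwards [h] with x hx using hx
      apply OQ_residual
      intro u
      obtain ⟨v, hv⟩ := extend_iter (2 * u.length) u w
      refine ⟨v, 2 * u.length, ?_⟩
      rw [hv, erase u.length u le_rfl, List.nil_append]
    have h1' := eventually_countable_forall.2 fun n => eventually_countable_forall.2 (h1 n)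
    have h2' := eventually_countable_forall.2 h2
    filter_upwards [h1', h2'] with x hx1 hx2
    exact dense_orbit (hx1 0 0).1 (fun n m => (hx1 n m).2) fun w => by
      obtain ⟨k, n, h⟩ := (hx2 w).2
      exact ⟨k, n, h⟩
  refine ⟨by rwa [IsMeagre, compl_compl], fun hM => ?_⟩
  rw [IsMeagre] at hM
  have h3 : (∅ : Set (Icc (0 : ℝ) 1)) ∈ residual (Icc (0 : ℝ) 1) := by
    have := Filter.inter_mem hE hM
    rwa [inter_compl_self] at this
  have h4 := dense_of_mem_residual h3
  obtain ⟨y, hy⟩ := h4.nonempty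
  exact hy

end Pool.Agent.Results.MP_7df46e_an.DenseOrbitsComeagre
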